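import Pool.Agent.K3h44.RQ.Stm
import Pool.Agent.Y941.WQ.BR

/-!
# A `q`-adic embedding of a cyclotomic field defines a prime ideal (RQ brick BRM)
-/

set_option autoImplicit false

namespace Pool.Agent.K3h57.RQ

open NumberField IsDedekindDomain Pool.Agent.K3h44.RQ Pool.Agent.Y941.WQ

theorem t_BRM : S_BRM := by
  intro m _ C _ _ c q _ hqm τ
  have hun := c.unram (PP τ) q Fact.out hqm (q_mem τ)
  refine ⟨PP τ, q_mem τ, fun x => Iff.rfl, ?_⟩
  intro x k hx
  have hq0 : ((q : ℕ) : C) ≠ 0 := by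
    exact_mod_cast (Fact.out : q.Prime).ne_zero
  obtain ⟨u, hu⟩ : ∃ u : C, u = x / ((q : ℕ) : C) ^ k := ⟨_, rfl⟩
  have hxu : x = u * ((q : ℕ) : C) ^ k := by
    rw [hu]
    field_simp
  have hvu : (PP τ).valuation C u = 1 := by
    rw [hu, map_div₀, map_zpow₀, val_q τ hun, hx, ← WithZero.exp_zsmul, ← WithZero.exp_sub]
    simp
  obtain ⟨n, d, hnd⟩ := HeightOneSpectrum.exists_primeCompl_mul_eq_of_integer (PP τ) u hvu.le
  have hd : (d : 𝓞 C) ∉ (PP τ).asIdeal := d.2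
  have hn : n ∉ (PP τ).asIdeal := by
    have h1 := congrArg ((PP τ).valuation C) hnd
    rw [map_mul, hvu, one_mul, (HeightOneSpectrum.valuation_eq_one_iff_notMem (PP τ)).2 hd] at h1
    exact (HeightOneSpectrum.valuation_eq_one_iff_notMem (PP τ)).1 h1.symm
  have h2 := congrArg (fun y => ‖τ y‖) hnd
  simp only [map_mul, norm_mul] at h2
  have h3 : ‖τ (algebraMap (𝓞 C) C d)‖ = 1 := norm_one_of_notMem τ hd
  have h4 : ‖τ (algebraMap (𝓞 C) C n)‖ = 1 := norm_one_of_notMem τ hn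
  rw [h3, h4, mul_one] at h2
  rw [hxu, map_mul, norm_mul, h2, one_mul, map_zpow₀, norm_zpow, map_natCast]

end Pool.Agent.K3h57.RQ
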