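import Pool.Agent.K3h44.RQ.Stm

/-!
# The cyclotomic field of `m`-th roots of unity has the bundled properties (RQ brick CYCM)
-/

set_option autoImplicit false

namespace Pool.Agent.K3h57.RQ

open NumberField IsDedekindDomain Pool.Agent.K3h44.RQ

section

variable (m : ℕ) [hm : NeZero m]

/-- the integers of the cyclotomic field are polynomials in the root of unity -/
theorem gen_aux (C : Type) [Field C] [NumberField C] [IsCyclotomicExtension {m} ℚ C] (z : C)
    (hz : IsPrimitiveRoot z m) (x : C) (hx : IsIntegral ℤ x) :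
    ∃ f : Polynomial ℤ, x = Polynomial.aeval z f := by
  have h := IsCyclotomicExtension.Rat.isIntegralClosure_adjoin_singleton (n := m) (K := C) hz
  obtain ⟨y, hy⟩ := h.isIntegral_iff.1 hx
  have hy2 : (y : C) ∈ (Polynomial.aeval (R := ℤ) z).range := by
    rw [← Algebra.adjoin_singleton_eq_range_aeval]
    exact y.2
  obtain ⟨f, hf⟩ := hy2
  refine ⟨f, ?_⟩
  rw [← hy]
  exact hf.symm

theorem lo_aux (C : Type) [Field C] [NumberField C]
    (P : HeightOneSpectrum (𝓞 C)) (q : ℕ) (hq : q.Prime)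
    (h1 : ((q : ℕ) : 𝓞 C) ∈ P.asIdeal) : P.asIdeal.LiesOver (Ideal.span {(q : ℤ)}) := by
  have := P.isPrime
  constructor
  have hmax : (Ideal.span {(q : ℤ)}).IsMaximal := by
    apply PrincipalIdealRing.isMaximal_of_irreducible
    exact (Nat.prime_iff_prime_int.mp hq).irreducible
  refine (hmax.eq_of_le ?_ ?_)
  · exact (Ideal.IsPrime.under ℤ P.asIdeal).ne_top
  · rw [Ideal.span_singleton_le_iff_mem, Ideal.mem_comap]
    simpa using h1

theorem ne_aux (C : Type) [Field C] [NumberField C] (q : ℕ) (hq : q.Prime) :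
    (Ideal.span {(q : ℤ)}).map (algebraMap ℤ (𝓞 C)) ≠ ⊥ := by
  rw [Ideal.map_span, Set.image_singleton]
  intro h
  rw [Ideal.span_singleton_eq_bot] at h
  simp only [algebraMap_int_eq, eq_intCast, Int.cast_natCast, Nat.cast_eq_zero] at h
  exact hq.ne_zero h

theorem dvd_aux (C : Type) [Field C] [NumberField C] (P : HeightOneSpectrum (𝓞 C)) (q n : ℕ) :
    P.asIdeal ^ n ∣ (Ideal.span {(q : ℤ)}).map (algebraMap ℤ (𝓞 C)) ↔
      ((q : ℕ) : 𝓞 C) ∈ P.asIdeal ^ n := by
  rw [Ideal.dvd_iff_le, Ideal.map_span, Set.image_singleton, Ideal.span_singleton_le_iff_mem]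
  simp

theorem fin_aux (C : Type) [Field C] [NumberField C] (P : HeightOneSpectrum (𝓞 C)) (q : ℕ)
    (hq : q.Prime) :
    FiniteMultiplicity P.asIdeal ((Ideal.span {(q : ℤ)}).map (algebraMap ℤ (𝓞 C))) := by
  apply FiniteMultiplicity.of_prime_left
  · exact Ideal.prime_of_isPrime P.ne_bot P.isPrime
  · exact ne_aux C q hq

/-- a prime number not dividing `m` is not ramified -/
theorem unram_aux (C : Type) [Field C] [NumberField C] [IsCyclotomicExtension {m} ℚ C]
    (P : HeightOneSpectrum (𝓞 C)) (q : ℕ) (hq : q.Prime) (hnd : ¬ q ∣ m)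
    (h1 : ((q : ℕ) : 𝓞 C) ∈ P.asIdeal) : ((q : ℕ) : 𝓞 C) ∉ P.asIdeal ^ 2 := by
  have : Fact q.Prime := ⟨hq⟩
  have := P.isPrime
  have hlo := lo_aux C P q hq h1
  have hr := IsCyclotomicExtension.Rat.ramificationIdx_eq_of_not_dvd q C P.asIdeal (m := m) hnd
  rw [Ideal.IsDedekindDomain.ramificationIdx_eq_multiplicity (Ideal.span {(q : ℤ)}) P.asIdeal
    (ne_aux C q hq)] at hr
  intro h2
  have hdvd := (dvd_aux C P q 2).2 h2
  have := (fin_aux C P q hq).le_multiplicity_of_pow_dvd hdvd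
  omega

/-- the valuation of a prime number dividing `m` exactly once -/
theorem val_p (C : Type) [Field C] [NumberField C] [IsCyclotomicExtension {m} ℚ C]
    (p k : ℕ) (hp : p.Prime) (hmk : m = p * k) (hpk : ¬ p ∣ k) (P : HeightOneSpectrum (𝓞 C))
    (h1 : ((p : ℕ) : 𝓞 C) ∈ P.asIdeal) :
    P.valuation C ((p : ℕ) : C) = WithZero.exp (-((p - 1 : ℕ) : ℤ)) := by
  have : Fact p.Prime := ⟨hp⟩
  have := P.isPrime
  have hlo := lo_aux C P p hp h1
  have hk : NeZero k := ⟨fun h => hm.1 (by rw [hmk, h, mul_zero])⟩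
  have hr := IsCyclotomicExtension.Rat.ramificationIdx_eq (K := C) m (p := p) (k := 0) (m := k)
    (P := P.asIdeal) (by rw [hmk]; ring) hpk
  rw [Ideal.IsDedekindDomain.ramificationIdx_eq_multiplicity (Ideal.span {(p : ℤ)}) P.asIdeal
    (ne_aux C p hp), pow_zero, one_mul] at hr
  have h2 : ((p : ℕ) : 𝓞 C) ∈ P.asIdeal ^ (p - 1) := by
    rw [← dvd_aux, ← hr]
    exact pow_multiplicity_dvd _ _
  have h3 : ((p : ℕ) : 𝓞 C) ∉ P.asIdeal ^ (p - 1 + 1) := by
    rw [← dvd_aux]
    intro h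
    have := (fin_aux C P p hp).le_multiplicity_of_pow_dvd h
    omega
  have hq0 : ((p : ℕ) : 𝓞 C) ≠ 0 := by
    exact_mod_cast hp.ne_zero
  have e : ((p : ℕ) : C) = algebraMap (𝓞 C) C ((p : ℕ) : 𝓞 C) := by rw [map_natCast]
  rw [e, HeightOneSpectrum.valuation_of_algebraMap]
  rw [← HeightOneSpectrum.intValuation_le_pow_iff_mem] at h2 h3
  rw [HeightOneSpectrum.intValuation_if_neg _ hq0] at h2 h3 ⊢
  rw [WithZero.exp_le_exp] at h2 h3
  congr 1
  push_cast at h2 h3
  omega

/-- divisibility of differences of powers -/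
theorem val_pow_le (C : Type) [Field C] [NumberField C] (P : HeightOneSpectrum (𝓞 C)) (w : C)
    (hw : P.valuation C w ≤ 1) (i : ℕ) :
    P.valuation C (1 - w ^ i) ≤ P.valuation C (1 - w) := by
  have h : (1 - w ^ i) = (1 - w) * ∑ j ∈ Finset.range i, w ^ j := by
    rw [mul_neg_geom_sum w i]
  rw [h, map_mul]
  refine mul_le_of_le_one_right' ?_
  refine Valuation.map_sum_le _ fun j _ => ?_
  rw [map_pow]
  exact pow_le_one₀ zero_le hw

/-- the valuation of `1 - ζ` -/
theorem unif_aux (C : Type) [Field C] [NumberField C] [IsCyclotomicExtension {m} ℚ C] (z : C)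
    (hz : IsPrimitiveRoot z m)
    (p k : ℕ) (hp : p.Prime) (hmk : m = p * k) (hpk : ¬ p ∣ k) (P : HeightOneSpectrum (𝓞 C))
    (h1 : ((p : ℕ) : 𝓞 C) ∈ P.asIdeal) :
    P.valuation C (1 - z ^ k) = WithZero.exp (-1 : ℤ) := by
  have hv := val_p m C p k hp hmk hpk P h1
  have hk : k ≠ 0 := fun h => hm.1 (by rw [hmk, h, mul_zero])
  have hζ : IsPrimitiveRoot (z ^ k) p := hz.pow (Nat.pos_of_ne_zero hm.1) (by rw [hmk]; ring)
  have hpz : NeZero p := ⟨hp.ne_zero⟩
  obtain ⟨w, hw⟩ : ∃ w : C, w = z ^ k := ⟨_, rfl⟩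
  rw [← hw] at hζ ⊢
  have hint : P.valuation C w ≤ 1 := by
    have h2 : IsIntegral ℤ w := hζ.isIntegral hp.pos
    have h3 := P.valuation_le_one (K := C) (⟨w, h2⟩ : 𝓞 C)
    exact h3
  have hpow : ∀ i : ℕ, P.valuation C (w ^ i) ≤ 1 := by
    intro i
    rw [map_pow]
    exact pow_le_one₀ zero_le hint
  have heq : ∀ i ∈ Finset.range (p - 1), P.valuation C (1 - w ^ (i + 1)) =
      P.valuation C (1 - w) := by
    intro i hi
    rw [Finset.mem_range] at hi
    refine le_antisymm (val_pow_le C P w hint (i + 1)) ?_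
    have hcop : Nat.Coprime (i + 1) p := by
      rw [Nat.coprime_comm, hp.coprime_iff_not_dvd]
      intro hd
      have := Nat.le_of_dvd (Nat.succ_pos i) hd
      omega
    obtain ⟨j, -, hj⟩ := (hζ.pow_of_coprime (i + 1) hcop).eq_pow_of_pow_eq_one
      (ξ := w) (by exact hζ.pow_eq_one)
    calc P.valuation C (1 - w) = P.valuation C (1 - (w ^ (i + 1)) ^ j) := by rw [hj]
      _ ≤ _ := val_pow_le C P _ (hpow _) j
  have hprod : ∏ i ∈ Finset.range (p - 1), (1 - w ^ (i + 1)) = ((p : ℕ) : C) := by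
    have h2 : p - 1 + 1 = p := Nat.succ_pred_eq_of_pos hp.pos
    have h3 := IsPrimitiveRoot.prod_one_sub_pow_eq_order (R := C) (n := p - 1) (μ := w)
      (by rw [h2]; exact hζ)
    rw [h3]
    have h4 : ((p - 1 : ℕ) : C) + 1 = ((p - 1 + 1 : ℕ) : C) := by push_cast; ring
    rw [h4, h2]
  rw [← hprod, map_prod, Finset.prod_congr rfl heq, Finset.prod_const, Finset.card_range] at hv
  have hne : P.valuation C (1 - w) ≠ 0 := by
    rw [Valuation.ne_zero_iff]
    intro h
    have h2 : w = 1 := (sub_eq_zero.1 h).symm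
    rw [h2] at hζ
    have := hζ.unique (IsPrimitiveRoot.one (M := C))
    exact hp.one_lt.ne' this
  have hexp : P.valuation C (1 - w) = WithZero.exp (WithZero.log (P.valuation C (1 - w))) :=
    (WithZero.exp_log hne).symm
  rw [hexp] at hv ⊢
  rw [← WithZero.exp_nsmul, WithZero.exp_inj] at hv
  rw [WithZero.exp_inj]
  have hp1 : 0 < p - 1 := by have := hp.two_le; omega
  have hp2 : ((p - 1 : ℕ) : ℤ) ≠ 0 := by exact_mod_cast hp1.ne'
  rw [nsmul_eq_mul] at hv
  have : ((p - 1 : ℕ) : ℤ) * (WithZero.log (P.valuation C (1 - w)) - (-1)) = 0 := by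
    linear_combination hv
  rcases mul_eq_zero.1 this with h | h
  · exact absurd h hp2
  · linear_combination h

/-- roots of unity -/
theorem tors_aux (C : Type) [Field C] [NumberField C] [IsCyclotomicExtension {m} ℚ C] (z : C)
    (hz : IsPrimitiveRoot z m) (u : C) (hu : IsOfFinOrder u) : ∃ i : ℕ, u = z ^ i ∨ u = -z ^ i := by
  rcases Nat.even_or_odd m with hev | hodd
  · obtain ⟨k, hkpos, hkn⟩ := isOfFinOrder_iff_pow_eq_one.1 hu
    have hprim : IsPrimitiveRoot u (orderOf u) := IsPrimitiveRoot.orderOf u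
    have hpos : NeZero (orderOf u) := ⟨(orderOf_pos_iff.2 hu).ne'⟩
    have h1 := NumberField.Units.dvd_torsionOrder_of_isPrimitiveRoot (K := C) hprim
    rw [IsCyclotomicExtension.Rat.torsionOrder_eq (n := m), if_pos hev] at h1
    have h2 : u ^ m = 1 := orderOf_dvd_iff_pow_eq_one.1 h1
    obtain ⟨i, -, hi⟩ := hz.eq_pow_of_pow_eq_one h2
    exact ⟨i, Or.inl hi.symm⟩
  · obtain ⟨r, _, hr⟩ := hz.exists_pow_or_neg_mul_pow_of_isOfFinOrder hodd hu
    exact ⟨r, hr⟩

/-- every cyclotomic extension has all the bundled properties -/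
theorem cyc_aux (C : Type) [Field C] [NumberField C] [hC : IsCyclotomicExtension {m} ℚ C] :
    Nonempty (CycM m C) := by
  have hirr : Irreducible (Polynomial.cyclotomic m ℚ) :=
    Polynomial.cyclotomic.irreducible_rat (Nat.pos_of_ne_zero hm.1)
  have hz : IsPrimitiveRoot (IsCyclotomicExtension.zeta m ℚ C) m :=
    IsCyclotomicExtension.zeta_spec m ℚ C
  let e : (C ≃ₐ[ℚ] C) ≃* (ZMod m)ˣ := IsCyclotomicExtension.autEquivPow C hirr
  refine ⟨?_⟩
  refine
    { z := IsCyclotomicExtension.zeta m ℚ C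
      prim := hz
      σ := e.symm.toMonoidHom
      σ_z := ?_
      all := ?_
      gen := gen_aux m C _ hz
      tors := tors_aux m C _ hz
      rank := ?_
      unram := unram_aux m C
      unif := unif_aux m C _ hz }
  · intro t
    have h := hz.autToPow_spec ℚ (e.symm t)
    have h2 : hz.autToPow ℚ (e.symm t) = t := e.apply_symm_apply t
    rw [h2] at h
    exact h.symm
  · intro τ
    exact ⟨e τ, e.symm_apply_apply τ⟩
  · rw [IsCyclotomicExtension.finrank C hirr]

end

/-- the cyclotomic field has all the bundled properties -/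
theorem t_CYCM : S_CYCM := by
  intro m hm _
  have : NeZero ((m : ℕ) : ℚ) := ⟨by exact_mod_cast hm.1⟩
  have h := CyclotomicField.isCyclotomicExtension m ℚ
  have h2 : @IsCyclotomicExtension {m} ℚ (CyclotomicField m ℚ) _ _ DivisionRing.toRatAlgebra := by
    have e : (DivisionRing.toRatAlgebra : Algebra ℚ (CyclotomicField m ℚ)) =
        CyclotomicField.algebra m ℚ := Subsingleton.elim _ _
    rw [e]
    exact h
  exact ⟨CyclotomicField m ℚ, inferInstance, inferInstance,
    cyc_aux m (CyclotomicField m ℚ) (hC := h2)⟩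

end Pool.Agent.K3h57.RQ
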